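import Pool.Agent.Helper233.LP.Main
set_option autoImplicit false
namespace Pool.Agent.Helper233.LP
open Finset Filter Topology

theorem taylor_of_hasSum (g : ℂ → ℂ) (b : ℕ → ℂ)
    (h : ∀ᶠ z in 𝓝 (0:ℂ), HasSum (fun n => z ^ n * b n) (g z)) :
    AnalyticAt ℂ g 0 ∧ ∀ n : ℕ, iteratedDeriv n g 0 = (n.factorial : ℂ) * b n := by
  have h1 : HasFPowerSeriesAt g (FormalMultilinearSeries.ofScalars ℂ b) 0 := by
    rw [hasFPowerSeriesAt_iff]
    simpa [FormalMultilinearSeries.coeff_ofScalars] using h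
  refine ⟨h1.analyticAt, ?_⟩
  intro n
  have h2 := h1.analyticAt.hasFPowerSeriesAt
  have h3 := h2.eq_formalMultilinearSeries h1
  have h4 := congrArg (fun p => FormalMultilinearSeries.coeff p n) h3
  simp only [FormalMultilinearSeries.coeff_ofScalars] at h4
  have h5 : (n.factorial : ℂ) ≠ 0 := by exact_mod_cast n.factorial_ne_zero
  rw [div_eq_iff h5] at h4
  rw [h4, mul_comm]

theorem exp_coeff (g f : ℂ → ℂ) (l : ℕ → ℝ)
    (h : ∀ᶠ z in 𝓝 (0:ℂ), HasSum (fun n => z ^ n * (if n = 0 then 0 else (l (n-1) : ℂ) / (n:ℂ))) (g z))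
    (hf : f =ᶠ[𝓝 (0:ℂ)] fun z => Complex.exp (g z)) :
    ∀ m : ℕ, iteratedDeriv m f 0 = (m.factorial : ℂ) * (A l m : ℂ) := by
  obtain ⟨hg, hgc⟩ := taylor_of_hasSum g _ h
  have hg0 : g 0 = 0 := by
    have := hgc 0
    simpa using this
  have hga : AnalyticAt ℂ (fun z => Complex.exp (g z)) 0 := hg.cexp
  have hfa : AnalyticAt ℂ f 0 := hga.congr hf.symm
  have hderiv : deriv f =ᶠ[𝓝 (0:ℂ)] (deriv g * f) := by
    have h1 := hf.deriv
    have h2 := hg.eventually_analyticAt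
    filter_upwards [h1, h2, hf] with z hz1 hz2 hz3
    rw [hz1, Pi.mul_apply, hz3]
    have := (hz2.differentiableAt.hasDerivAt).cexp.deriv
    rw [this, mul_comm]
  have hu : ∀ m, iteratedDeriv m f 0 / (m.factorial : ℂ) = (A l m : ℂ) := by
    apply A_unique_complex l (fun m => iteratedDeriv m f 0 / (m.factorial : ℂ))
    · simp [hf.eq_of_nhds, hg0]
    · intro m
      have h5 : (m.factorial : ℂ) ≠ 0 := by exact_mod_cast m.factorial_ne_zero
      have h6 : ((m:ℂ)+1) ≠ 0 := by exact_mod_cast Nat.succ_ne_zero m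
      have e1 : iteratedDeriv (m+1) f 0 = ∑ i ∈ range (m+1), (m.choose i : ℂ) * ((i.factorial : ℂ) * (l i : ℂ)) *
          iteratedDeriv (m-i) f 0 := by
        rw [iteratedDeriv_succ', hderiv.iteratedDeriv_eq m, iteratedDeriv_mul hg.deriv.contDiffAt hfa.contDiffAt]
        apply Finset.sum_congr rfl
        intro i hi
        rw [← iteratedDeriv_succ', hgc (i+1), if_neg (by omega), Nat.add_sub_cancel, Nat.factorial_succ]
        have h7 : ((i:ℂ)+1) ≠ 0 := by exact_mod_cast Nat.succ_ne_zero i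
        push_cast
        field_simp
      rw [Nat.factorial_succ]
      push_cast
      rw [e1, mul_div_assoc', mul_div_mul_left _ _ h6, Finset.sum_div]
      apply Finset.sum_congr rfl
      intro i hi
      have hi' : i ≤ m := by have := Finset.mem_range.mp hi; omega
      have h8 := Nat.choose_mul_factorial_mul_factorial hi'
      have h9 : ((m.choose i : ℕ) : ℂ) * (i.factorial : ℂ) * ((m-i).factorial : ℂ) = (m.factorial : ℂ) := by
        exact_mod_cast h8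
      have h10 : ((m-i).factorial : ℂ) ≠ 0 := by exact_mod_cast (m-i).factorial_ne_zero
      rw [← h9]
      rw [← h9] at h5
      have h11 : (m.choose i : ℂ) ≠ 0 := by
        intro h; apply h5; rw [h]; ring
      have h12 : (i.factorial : ℂ) ≠ 0 := by exact_mod_cast i.factorial_ne_zero
      field_simp
  intro m
  have h5 : (m.factorial : ℂ) ≠ 0 := by exact_mod_cast m.factorial_ne_zero
  rw [← hu m, mul_div_cancel₀ _ h5]

theorem elem_factor (d : ℕ) (w : ℂ) (hw : ‖w‖ < 1) :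
    ∃ E : ℂ, HasSum (fun i : ℕ => w ^ (i+d+1) / ((i:ℂ)+d+1)) E ∧
      (1 - w) * Complex.exp (∑ j ∈ Finset.Icc 1 d, w ^ j / (j:ℂ)) = Complex.exp (-E) := by
  have h1 := Complex.hasSum_taylorSeries_neg_log hw
  have h2 := (hasSum_nat_add_iff' (f := fun n : ℕ => w ^ n / (n:ℂ)) (d+1)).mpr h1
  refine ⟨-Complex.log (1 - w) - ∑ i ∈ range (d+1), w ^ i / (i:ℂ), ?_, ?_⟩
  · have h5 : ∀ i : ℕ, w ^ (i+(d+1)) / ((i+(d+1) : ℕ):ℂ) = w ^ (i+d+1) / ((i:ℂ)+d+1) := by
      intro i; push_cast; rw [← add_assoc, ← add_assoc]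
    simp only [h5] at h2
    exact h2
  · have h3 : ∑ i ∈ range (d+1), w ^ i / (i:ℂ) = ∑ j ∈ Finset.Icc 1 d, w ^ j / (j:ℂ) := by
      rw [Finset.sum_range_succ', show Finset.Icc 1 d = Finset.Ico 1 (d+1) by ext; simp, Finset.sum_Ico_eq_sum_range]
      simp [add_comm]
    have h4 : (1 - w) ≠ 0 := by
      intro h
      have : w = 1 := by linear_combination -h
      rw [this] at hw
      simp at hw
    rw [h3, neg_sub, sub_neg_eq_add, Complex.exp_add, Complex.exp_log h4, mul_comm]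

theorem prod_expansion (d : ℕ) (y : ℕ → ℝ) (hs : Summable (fun k => |y k| ^ (d+1))) :
    ∀ᶠ z in 𝓝 (0:ℂ), ∃ h : ℂ,
      HasSum (fun i : ℕ => ((∑' k, (y k) ^ (i+d+1) : ℝ) : ℂ) * z ^ (i+d+1) / ((i:ℂ)+d+1)) h ∧
      HasProd (fun n => (1 - (y n : ℂ) * z) * Complex.exp (∑ j ∈ Finset.Icc 1 d, ((y n : ℂ) * z) ^ j / (j : ℂ)))
        (Complex.exp (-h)) := by
  have hbd : ∃ C : ℝ, 0 ≤ C ∧ ∀ k, |y k| ≤ C := by
    have h1 := Metric.isBounded_range_of_tendsto y (tendsto_zero_of_summable d y hs)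
    rw [isBounded_iff_forall_norm_le] at h1
    obtain ⟨C, hC⟩ := h1
    refine ⟨C, ?_, ?_⟩
    · exact (norm_nonneg _).trans (hC (y 0) ⟨0, rfl⟩)
    · intro k
      have := hC (y k) ⟨k, rfl⟩
      rwa [Real.norm_eq_abs] at this
  obtain ⟨C, hC0, hC⟩ := hbd
  have hR : 0 < 1 / (2 * (C+1)) := by positivity
  filter_upwards [Metric.ball_mem_nhds (0:ℂ) hR] with z hz
  rw [mem_ball_zero_iff] at hz
  have hw : ∀ k, ‖(y k : ℂ) * z‖ ≤ 1 / 2 := by
    intro k
    rw [norm_mul, Complex.norm_real, Real.norm_eq_abs]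
    calc |y k| * ‖z‖ ≤ (C + 1) * (1 / (2 * (C+1))) := by
          apply mul_le_mul ((hC k).trans (by linarith)) hz.le (norm_nonneg _) (by linarith)
      _ = 1 / 2 := by field_simp
  have hE : ∀ k, ∃ E : ℂ, HasSum (fun i : ℕ => ((y k : ℂ) * z) ^ (i+d+1) / ((i:ℂ)+d+1)) E ∧
      (1 - (y k : ℂ) * z) * Complex.exp (∑ j ∈ Finset.Icc 1 d, ((y k : ℂ) * z) ^ j / (j:ℂ)) = Complex.exp (-E) :=
    fun k => elem_factor d _ ((hw k).trans_lt (by norm_num))
  choose E hE1 hE2 using hE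
  have hG : Summable (fun p : ℕ × ℕ => ((y p.1 : ℂ) * z) ^ (p.2+d+1) / ((p.2:ℂ)+d+1)) := by
    have hb : Summable (fun p : ℕ × ℕ => (|y p.1| ^ (d+1) * ‖z‖ ^ (d+1)) * (1/2 : ℝ) ^ p.2) := by
      apply Summable.mul_of_nonneg (hs.mul_right _) (summable_geometric_of_lt_one (by norm_num) (by norm_num))
      · intro k; positivity
      · intro k; positivity
    apply Summable.of_norm_bounded hb
    rintro ⟨k, i⟩
    simp only
    rw [norm_div]
    have h1 : (1:ℝ) ≤ ‖((i:ℂ)+d+1)‖ := by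
      have : ((i:ℂ)+d+1) = (((i:ℝ)+d+1 : ℝ) : ℂ) := by push_cast; ring
      rw [this, Complex.norm_real, Real.norm_eq_abs, abs_of_pos (by positivity)]
      have : (0:ℝ) ≤ (i:ℝ) := by positivity
      have : (0:ℝ) ≤ (d:ℝ) := by positivity
      linarith
    have h2 : ‖((y k : ℂ) * z) ^ (i+d+1)‖ ≤ |y k| ^ (d+1) * ‖z‖ ^ (d+1) * (1/2 : ℝ) ^ i := by
      rw [norm_pow, show i + d + 1 = (d+1) + i by omega, pow_add, ← mul_pow]
      have h3 : ‖(y k : ℂ) * z‖ ^ (d+1) = (|y k| * ‖z‖) ^ (d+1) := by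
        rw [norm_mul, Complex.norm_real, Real.norm_eq_abs]
      rw [h3]
      apply mul_le_mul_of_nonneg_left _ (by positivity)
      exact pow_le_pow_left₀ (norm_nonneg _) (hw k) i
    calc ‖((y k : ℂ) * z) ^ (i+d+1)‖ / ‖((i:ℂ)+d+1)‖ ≤ ‖((y k : ℂ) * z) ^ (i+d+1)‖ :=
          div_le_self (norm_nonneg _) h1
      _ ≤ _ := h2
  refine ⟨∑' p : ℕ × ℕ, ((y p.1 : ℂ) * z) ^ (p.2+d+1) / ((p.2:ℂ)+d+1), ?_, ?_⟩
  · have h1 := (Equiv.prodComm ℕ ℕ).hasSum_iff.mpr hG.hasSum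
    apply h1.prod_fiberwise
    intro i
    have h2 : HasSum (fun k => (y k) ^ (i+d+1)) (∑' k, (y k) ^ (i+d+1)) :=
      (summable_pow d y hs (i+d+1) (by omega)).hasSum
    have h3 : HasSum (fun k => (((y k) ^ (i+d+1) : ℝ) : ℂ)) ((∑' k, (y k) ^ (i+d+1) : ℝ) : ℂ) :=
      Complex.hasSum_ofReal.mpr h2
    have h4 := (h3.mul_right (z ^ (i+d+1))).div_const ((i:ℂ)+d+1)
    have h5 : ∀ k, (((y k) ^ (i+d+1) : ℝ) : ℂ) * z ^ (i+d+1) / ((i:ℂ)+d+1) = ((y k : ℂ) * z) ^ (i+d+1) / ((i:ℂ)+d+1) := by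
      intro k; rw [mul_pow]; push_cast; rfl
    simp only [h5] at h4
    exact h4
  · have h1 : HasSum E (∑' p : ℕ × ℕ, ((y p.1 : ℂ) * z) ^ (p.2+d+1) / ((p.2:ℂ)+d+1)) :=
      hG.hasSum.prod_fiberwise hE1
    have h2 := h1.neg.cexp
    convert h2 using 2 with k
    exact hE2 k

end Pool.Agent.Helper233.LP
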