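import Pool.Agent.Helper233.LP.Cplx
set_option autoImplicit false
namespace Pool.Agent.Helper233.LP
open Finset Filter Topology

/-- coefficients of the logarithmic derivative -/
noncomputable def lfun (d : ℕ) (a : ℝ) (β : Polynomial ℝ) (y : ℕ → ℝ) : ℕ → ℝ := fun j =>
  if j < d then ((j:ℝ)+1) * β.coeff (j+1) else
    -(if j = d then ((d:ℝ)+1) * a else 0) - ∑' k, (y k) ^ (j+1)

theorem ClInf_lfun (d : ℕ) (a : ℝ) (β : Polynomial ℝ) (y : ℕ → ℝ) : ClInf d a y (lfun d a β y) := by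
  intro j hj
  rw [lfun, if_neg (by omega)]

theorem factor_zero (d : ℕ) (w : ℂ) (hw : w = 0) :
    (1 - w) * Complex.exp (∑ j ∈ Finset.Icc 1 d, w ^ j / (j:ℂ)) = 1 := by
  subst hw
  rw [Finset.sum_eq_zero]
  · simp
  · intro j hj
    have := (Finset.mem_Icc.mp hj).1
    rw [zero_pow (by omega), zero_div]

theorem expansion (d : ℕ) (f : ℂ → ℂ) (c : ℂ) (m : ℕ) (a : ℝ) (β : Polynomial ℝ) (y : ℕ → ℝ)
    (hdeg : β.natDegree ≤ d) (hs : Summable (fun n => |y n| ^ (d+1)))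
    (hf : ∀ z : ℂ, f z = c * z ^ m * Complex.exp (-(a:ℂ) * z ^ (d+1) + Polynomial.aeval z β) *
      ∏' n, ((1 - (y n : ℂ) * z) * Complex.exp (∑ j ∈ Finset.Icc 1 d, ((y n : ℂ) * z) ^ j / (j : ℂ))))
    (h0 : f 0 = 1) :
    ∀ k : ℕ, iteratedDeriv k f 0 = (k.factorial : ℂ) * (A (lfun d a β y) k : ℂ) := by
  -- value at zero
  have hz0 := hf 0
  rw [h0] at hz0
  have hp0 : ∏' n, ((1 - (y n : ℂ) * 0) * Complex.exp (∑ j ∈ Finset.Icc 1 d, ((y n : ℂ) * 0) ^ j / (j : ℂ))) = 1 := by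
    have : ∀ n, ((1 - (y n : ℂ) * 0) * Complex.exp (∑ j ∈ Finset.Icc 1 d, ((y n : ℂ) * 0) ^ j / (j : ℂ))) = 1 :=
      fun n => factor_zero d _ (mul_zero _)
    simp only [this, tprod_one]
  rw [hp0, mul_one] at hz0
  have hm : m = 0 := by
    by_contra hm
    rw [zero_pow hm] at hz0
    simp at hz0
  subst hm
  have hβ0 : Polynomial.aeval (0:ℂ) β = (β.coeff 0 : ℂ) := by
    rw [Polynomial.aeval_def, Polynomial.eval₂_at_zero]; rfl
  rw [pow_zero, mul_one, zero_pow (show d + 1 ≠ 0 by omega), mul_zero, zero_add, hβ0] at hz0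
  -- the exponent
  set h : ℂ → ℂ := fun z => ∑' i : ℕ, ((∑' k, (y k) ^ (i+d+1) : ℝ) : ℂ) * z ^ (i+d+1) / ((i:ℂ)+d+1) with hh
  set g : ℂ → ℂ := fun z => (-(a:ℂ) * z ^ (d+1) - h z) + (Polynomial.aeval z β - (β.coeff 0 : ℂ)) with hg
  have hexp := prod_expansion d y hs
  have hexp2 : ∀ᶠ z in 𝓝 (0:ℂ),
      HasSum (fun i : ℕ => ((∑' k, (y k) ^ (i+d+1) : ℝ) : ℂ) * z ^ (i+d+1) / ((i:ℂ)+d+1)) (h z) ∧
      HasProd (fun n => (1 - (y n : ℂ) * z) * Complex.exp (∑ j ∈ Finset.Icc 1 d, ((y n : ℂ) * z) ^ j / (j : ℂ)))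
        (Complex.exp (-(h z))) := by
    filter_upwards [hexp] with z hz
    obtain ⟨h', h1, h2⟩ := hz
    have : h z = h' := h1.tsum_eq
    rw [this]; exact ⟨h1, h2⟩
  apply exp_coeff g f
  · filter_upwards [hexp2] with z hz
    obtain ⟨h1, -⟩ := hz
    have hβ : Polynomial.aeval z β = (∑ i ∈ range d, z ^ (i+1) * (β.coeff (i+1) : ℂ)) + (β.coeff 0 : ℂ) := by
      rw [Polynomial.aeval_eq_sum_range' (show β.natDegree < d + 1 by omega), Finset.sum_range_succ']
      congr 1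
      · apply Finset.sum_congr rfl
        intro i hi
        rw [Complex.real_smul, mul_comm]
      · simp
    have hsum : ∑ i ∈ range (d+1), z ^ i * (if i = 0 then (0:ℂ) else (lfun d a β y (i-1) : ℂ) / (i:ℂ)) =
        Polynomial.aeval z β - (β.coeff 0 : ℂ) := by
      rw [hβ, add_sub_cancel_right, Finset.sum_range_succ']
      simp only [if_true, mul_zero, add_zero]
      apply Finset.sum_congr rfl
      intro i hi
      have hi' : i < d := Finset.mem_range.mp hi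
      rw [if_neg (by omega), Nat.add_sub_cancel, lfun, if_pos hi']
      have h7 : ((i:ℂ)+1) ≠ 0 := by exact_mod_cast Nat.succ_ne_zero i
      push_cast
      field_simp
    have htail : HasSum (fun i : ℕ => z ^ (i+(d+1)) * (if i+(d+1) = 0 then (0:ℂ) else
        (lfun d a β y (i+(d+1)-1) : ℂ) / ((i+(d+1) : ℕ):ℂ))) (-(a:ℂ) * z ^ (d+1) - h z) := by
      have h2 : HasSum (fun i : ℕ => if i = 0 then -(a:ℂ) * z ^ (d+1) else 0) (-(a:ℂ) * z ^ (d+1)) :=
        hasSum_ite_eq 0 _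
      have h3 := h2.sub h1
      have h4 : ∀ i : ℕ, (if i = 0 then -(a:ℂ) * z ^ (d+1) else 0) -
          ((∑' k, (y k) ^ (i+d+1) : ℝ) : ℂ) * z ^ (i+d+1) / ((i:ℂ)+d+1) =
          z ^ (i+(d+1)) * (if i+(d+1) = 0 then (0:ℂ) else
        (lfun d a β y (i+(d+1)-1) : ℂ) / ((i+(d+1) : ℕ):ℂ)) := by
        intro i
        have h8 : ((i:ℂ)+d+1) ≠ 0 := by exact_mod_cast Nat.succ_ne_zero (i+d)
        have hl : lfun d a β y (i+(d+1)-1) = -(if i + d = d then ((d:ℝ)+1) * a else 0) -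
            ∑' k, (y k) ^ (i+d+1) := by
          rw [show i + (d+1) - 1 = i + d by omega, lfun, if_neg (show ¬ (i + d < d) by omega)]
        rw [hl, if_neg (show ¬ (i + (d+1) = 0) by omega), ← add_assoc]
        generalize (∑' k, (y k) ^ (i+d+1)) = P
        by_cases hi : i = 0
        · subst hi
          simp only [zero_add, if_true, Nat.cast_zero] at h8 ⊢
          push_cast
          field_simp
        · rw [if_neg hi, if_neg (show ¬ (i + d = d) by omega)]
          push_cast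
          field_simp
          ring
      simp only [h4] at h3
      exact h3
    have := (hasSum_nat_add_iff (f := fun i : ℕ => z ^ i * (if i = 0 then (0:ℂ) else
      (lfun d a β y (i-1) : ℂ) / (i:ℂ))) (d+1)).mp htail
    rw [hsum] at this
    exact this
  · filter_upwards [hexp2] with z hz
    obtain ⟨-, h2⟩ := hz
    rw [hf z, h2.tprod_eq, pow_zero, mul_one]
    have h3 : Complex.exp (-(a:ℂ) * z ^ (d+1) + Polynomial.aeval z β) * Complex.exp (-(h z)) =
        Complex.exp (β.coeff 0 : ℂ) * Complex.exp (g z) := by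
      rw [← Complex.exp_add, ← Complex.exp_add]
      congr 1
      simp only [hg]; ring
    rw [mul_assoc, h3, ← mul_assoc, ← hz0, one_mul]

end Pool.Agent.Helper233.LP
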