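import Pool.Agent.Helper233.LP.Seq
set_option autoImplicit false
namespace Pool.Agent.Helper233.LP
open Finset Filter Topology

/-- extension by zero -/
noncomputable def ext (d : ℕ) (x : Fin d → ℝ) : ℕ → ℝ := fun j => if h : j < d then x ⟨j, h⟩ else 0

theorem ext_of_ge (d : ℕ) (x : Fin d → ℝ) (j : ℕ) (h : d ≤ j) : ext d x j = 0 := by
  rw [ext, dif_neg (by omega)]

theorem ext_of_lt (d : ℕ) (x : Fin d → ℝ) (j : ℕ) (h : j < d) : ext d x j = x ⟨j, h⟩ := by
  rw [ext, dif_pos h]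

theorem ext_smul (d : ℕ) (x : Fin d → ℝ) (t : ℝ) (j : ℕ) : ext d (t • x) j = t * ext d x j := by
  by_cases h : j < d
  · rw [ext_of_lt _ _ _ h, ext_of_lt _ _ _ h]; rfl
  · rw [ext_of_ge _ _ _ (by omega), ext_of_ge _ _ _ (by omega), mul_zero]

theorem ext_zero (d : ℕ) : ext d 0 = 0 := by
  funext j
  by_cases h : j < d
  · rw [ext_of_lt _ _ _ h]; rfl
  · rw [ext_of_ge _ _ _ (by omega)]; rfl

/-- the map -/
noncomputable def Psi (n d : ℕ) (q : (Fin (n+d) → ℝ) × (Fin d → ℝ)) : (Fin (n+d) → ℝ) × (Fin d → ℝ) :=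
  (q.1, fun i => A (ext (n+d) q.1 + ext d q.2) (n + i))

theorem contDiff_ext (d : ℕ) (j : ℕ) : ContDiff ℝ 1 (fun x : Fin d → ℝ => ext d x j) := by
  by_cases h : j < d
  · simp only [ext_of_lt d _ j h]
    exact contDiff_apply ℝ ℝ (⟨j, h⟩ : Fin d)
  · simp only [ext_of_ge d _ j (by omega : d ≤ j)]
    exact contDiff_const

theorem continuous_ext (d : ℕ) (j : ℕ) : Continuous (fun x : Fin d → ℝ => ext d x j) :=
  (contDiff_ext d j).continuous

theorem contDiff_Psi (n d : ℕ) : ContDiff ℝ 1 (Psi n d) := by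
  apply ContDiff.prodMk contDiff_fst
  rw [contDiff_pi]
  intro i
  apply contDiff_A (fun q : (Fin (n+d) → ℝ) × (Fin d → ℝ) => ext (n+d) q.1 + ext d q.2)
  intro j
  exact ((contDiff_ext (n+d) j).comp contDiff_fst).add ((contDiff_ext d j).comp contDiff_snd)

theorem local_solve (d n : ℕ) (hn : 1 ≤ n) (l0 : ℕ → ℝ) (hrun : Run d l0 n) (hA : A l0 (n-1) ≠ 0)
    (U : Set (Fin d → ℝ)) (hU : U ∈ 𝓝 0) :
    ∀ᶠ l in 𝓝 l0, ∃ x ∈ U, Run d (l + ext d x) n := by
  set w0 : Fin (n+d) → ℝ := fun i => l0 i with hw0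
  have hw0l : ∀ j < n + d, ext (n+d) w0 j = l0 j := by
    intro j hj
    rw [ext_of_lt _ _ _ hj]
  have hrun' : Run d (ext (n+d) w0) n := by
    intro i hi
    rw [← hrun i hi]
    exact A_congr _ _ _ (fun j hj => hw0l j (by omega))
  have hA' : A (ext (n+d) w0) (n-1) ≠ 0 := by
    rw [A_congr _ l0 _ (fun j hj => hw0l j (by omega))]
    exact hA
  have hPsi0 : Psi n d (w0, 0) = (w0, 0) := by
    rw [Psi]
    simp only [ext_zero, add_zero, Prod.mk.injEq, true_and]
    funext i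
    exact hrun' i i.2
  have hstrict : HasStrictFDerivAt (Psi n d) (fderiv ℝ (Psi n d) (w0, 0)) (w0, 0) :=
    (contDiff_Psi n d).contDiffAt.hasStrictFDerivAt (by norm_num)
  have hinj : Function.Injective (fderiv ℝ (Psi n d) (w0, 0)) := by
    rw [injective_iff_map_eq_zero]
    rintro ⟨w, x⟩ hwx
    have hd : HasDerivAt (fun t : ℝ => Psi n d ((w0, 0) + t • (w, x))) 0 0 := by
      have h1 : HasDerivAt (fun t : ℝ => ((w0, 0) : (Fin (n+d) → ℝ) × (Fin d → ℝ)) + t • (w, x)) (w, x) 0 := by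
        have := ((hasDerivAt_id (0:ℝ)).smul_const ((w, x) : (Fin (n+d) → ℝ) × (Fin d → ℝ))).const_add (w0, 0)
        simpa using this
      have h2 := hstrict.hasFDerivAt
      have h3 : ((w0, 0) : (Fin (n+d) → ℝ) × (Fin d → ℝ)) = (w0, 0) + (0:ℝ) • (w, x) := by simp
      rw [h3] at h2
      have h4 := h2.comp_hasDerivAt (0:ℝ) h1
      rw [← h3, hwx] at h4
      exact h4
    have hw : w = 0 := by
      have h1 : HasDerivAt (fun t : ℝ => w0 + t • w) 0 0 := by
        have := (hasFDerivAt_fst (𝕜 := ℝ) (p := Psi n d ((w0,0) + (0:ℝ)•(w,x)))).comp_hasDerivAt (0:ℝ) hd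
        exact this
      have h2 : HasDerivAt (fun t : ℝ => w0 + t • w) w 0 := by
        have := ((hasDerivAt_id (0:ℝ)).smul_const w).const_add w0
        simpa using this
      exact h2.unique h1
    subst hw
    have hx : ∀ i < d, D (ext (n+d) w0) (ext d x) (n+i) = 0 := by
      intro i hi
      have h1 : HasDerivAt (fun t : ℝ => A (fun j => ext (n+d) w0 j + t * ext d x j) (n+i)) 0 0 := by
        have h5 := (hasFDerivAt_snd (𝕜 := ℝ) (p := Psi n d ((w0,0) + (0:ℝ)•((0 : Fin (n+d) → ℝ),x)))).comp_hasDerivAt (0:ℝ) hd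
        have h6 : HasDerivAt (fun t : ℝ => (Psi n d ((w0,0) + t•((0 : Fin (n+d) → ℝ),x))).2 ⟨i, hi⟩) 0 0 :=
          (hasDerivAt_pi.mp h5) ⟨i, hi⟩
        have h7 : (fun t : ℝ => (Psi n d ((w0,0) + t•((0 : Fin (n+d) → ℝ),x))).2 ⟨i, hi⟩) =
          (fun t : ℝ => A (fun j => ext (n+d) w0 j + t * ext d x j) (n+i)) := by
          funext t
          simp only [Psi]
          congr 1
          funext j
          simp [ext_smul]
        rw [h7] at h6
        exact h6
      exact (hasDerivAt_A (ext (n+d) w0) (ext d x) (n+i)).unique h1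
    have := D_run d (ext (n+d) w0) (ext d x) n hn hrun' hA' (fun j hj => ext_of_ge _ _ _ hj) hx
    have hx0 : x = 0 := by
      funext i
      have := this i
      rw [ext_of_lt _ _ _ i.2] at this
      exact this
    rw [hx0]; rfl
  have hsurj : (fderiv ℝ (Psi n d) (w0, 0)).range = ⊤ := by
    rw [LinearMap.range_eq_top]
    exact (LinearMap.injective_iff_surjective (f := (fderiv ℝ (Psi n d) (w0, 0)).toLinearMap)).mp hinj
  have hmap := hstrict.map_nhds_eq_of_surj hsurj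
  have hmem : (Set.univ ×ˢ U : Set ((Fin (n+d) → ℝ) × (Fin d → ℝ))) ∈ 𝓝 ((w0, 0) : (Fin (n+d) → ℝ) × (Fin d → ℝ)) :=
    prod_mem_nhds univ_mem hU
  have himg : Psi n d '' (Set.univ ×ˢ U) ∈ 𝓝 ((w0, 0) : (Fin (n+d) → ℝ) × (Fin d → ℝ)) := by
    have := Filter.image_mem_map (m := Psi n d) hmem
    rw [hmap, hPsi0] at this
    exact this
  have hcont : Continuous (fun l : ℕ → ℝ => (((fun i => l i), 0) : (Fin (n+d) → ℝ) × (Fin d → ℝ))) := by
    fun_prop
  have hev := hcont.continuousAt (x := l0) |>.preimage_mem_nhds himg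
  filter_upwards [hev] with l hl
  obtain ⟨⟨w, x⟩, ⟨-, hxU⟩, hwx⟩ := hl
  simp only [Psi, Prod.mk.injEq] at hwx
  obtain ⟨hw, hx⟩ := hwx
  refine ⟨x, hxU, ?_⟩
  intro i hi
  have := congrFun hx ⟨i, hi⟩
  simp only [Pi.zero_apply] at this
  rw [← this]
  apply A_congr
  intro j hj
  simp only [Pi.add_apply]
  rw [ext_of_lt (n+d) w j (by omega), hw]

end Pool.Agent.Helper233.LP
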