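import Pool.Agent.Helper233.LP.Sign
set_option autoImplicit false
namespace Pool.Agent.Helper233.LP
open Finset Filter Topology

/-- logarithmic derivative coefficients with a sequence of roots -/
def ClInf (d : ℕ) (a : ℝ) (y : ℕ → ℝ) (l : ℕ → ℝ) : Prop :=
  ∀ j, d ≤ j → l j = -(if j = d then ((d:ℝ)+1) * a else 0) - ∑' k, (y k) ^ (j+1)

theorem tendsto_zero_of_summable (d : ℕ) (y : ℕ → ℝ) (hs : Summable (fun k => |y k| ^ (d+1))) :
    Tendsto y atTop (𝓝 0) := by
  have h1 := hs.tendsto_atTop_zero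
  rw [Metric.tendsto_atTop] at h1 ⊢
  intro ε hε
  obtain ⟨N, hN⟩ := h1 (ε ^ (d+1)) (by positivity)
  refine ⟨N, fun n hn => ?_⟩
  have := hN n hn
  rw [Real.dist_eq, sub_zero, abs_of_nonneg (by positivity)] at this
  rw [Real.dist_eq, sub_zero]
  exact lt_of_pow_lt_pow_left₀ (d+1) hε.le this

theorem summable_pow (d : ℕ) (y : ℕ → ℝ) (hs : Summable (fun k => |y k| ^ (d+1))) (j : ℕ) (hj : d + 1 ≤ j) :
    Summable (fun k => (y k) ^ j) := by
  apply Summable.of_norm_bounded_eventually_nat hs
  have h1 := tendsto_zero_of_summable d y hs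
  rw [Metric.tendsto_atTop] at h1
  obtain ⟨N, hN⟩ := h1 1 one_pos
  filter_upwards [eventually_ge_atTop N] with n hn
  have := hN n hn
  rw [Real.dist_eq, sub_zero] at this
  rw [norm_pow, Real.norm_eq_abs]
  exact pow_le_pow_of_le_one (abs_nonneg _) this.le hj

theorem ps_range (y : ℕ → ℝ) (N j : ℕ) :
    ps (Multiset.map y (range N).val) j = ∑ i ∈ range N, (y i) ^ j := by
  rw [ps, Multiset.map_map]
  rfl

theorem limit_sign (d : ℕ) (hd : Even (d+1)) (n : ℕ) (hn : 1 ≤ n) (a : ℝ) (ha : 0 ≤ a) (y : ℕ → ℝ)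
    (hs : Summable (fun k => |y k| ^ (d+1))) (l : ℕ → ℝ) (hcl : ClInf d a y l)
    (hrun : Run d l n) (hA : A l (n-1) ≠ 0) (k : ℕ) :
    0 ≤ A l (n-1) * A (l + root (y k)) (n-1) := by
  by_contra hneg
  push Not at hneg
  have hcont : Continuous (fun q : (ℕ → ℝ) × (Fin d → ℝ) =>
      A (q.1 + ext d q.2) (n-1) * A (q.1 + ext d q.2 + root (y k)) (n-1)) := by
    have h1 : ∀ j, Continuous (fun q : (ℕ → ℝ) × (Fin d → ℝ) => (q.1 + ext d q.2) j) := by
      intro j
      exact ((continuous_apply j).comp continuous_fst).add ((continuous_ext d j).comp continuous_snd)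
    apply Continuous.mul
    · exact continuous_A (fun q : (ℕ → ℝ) × (Fin d → ℝ) => q.1 + ext d q.2) h1 _
    · apply continuous_A (fun q : (ℕ → ℝ) × (Fin d → ℝ) => q.1 + ext d q.2 + root (y k))
      intro j
      exact (h1 j).add continuous_const
  have hev : ∀ᶠ q in 𝓝 ((l, 0) : (ℕ → ℝ) × (Fin d → ℝ)),
      A (q.1 + ext d q.2) (n-1) * A (q.1 + ext d q.2 + root (y k)) (n-1) < 0 := by
    apply hcont.continuousAt.eventually_lt continuousAt_const
    simpa [ext_zero] using hneg
  rw [nhds_prod_eq, eventually_prod_iff] at hev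
  obtain ⟨pa, hpa, pb, hpb, hpab⟩ := hev
  have hloc := local_solve d n hn l hrun hA {x | pb x} hpb
  set lN : ℕ → ℕ → ℝ := fun N j => if j < d then l j else
    -(if j = d then ((d:ℝ)+1) * (a + 1 / ((N:ℝ)+1)) else 0) - ∑ i ∈ range N, (y i) ^ (j+1) with hlN
  have htend : Tendsto lN atTop (𝓝 l) := by
    rw [tendsto_pi_nhds]
    intro j
    simp only [hlN]
    by_cases hj : j < d
    · simp only [hj, if_true]; exact tendsto_const_nhds
    · simp only [hj, if_false]
      rw [hcl j (by omega)]
      have h1 := (summable_pow d y hs (j+1) (by omega)).hasSum.tendsto_sum_nat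
      apply Tendsto.sub _ h1
      apply Tendsto.neg
      by_cases hjd : j = d
      · simp only [hjd, if_true]
        have h2 : Tendsto (fun N : ℕ => ((d:ℝ)+1) * (a + 1 / ((N:ℝ)+1))) atTop (𝓝 (((d:ℝ)+1) * (a + 0))) :=
          (tendsto_const_nhds.add tendsto_one_div_add_atTop_nhds_zero_nat).const_mul _
        simpa using h2
      · simp only [hjd, if_false]; exact tendsto_const_nhds
  have hev2 := (htend.eventually (hpa.and hloc)).and (eventually_gt_atTop k)
  obtain ⟨N, ⟨hpaN, x, hx, hxrun⟩, hkN⟩ := hev2.exists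
  have hneg2 := hpab hpaN hx
  have hcl2 : Cl d (a + 1 / ((N:ℝ)+1)) (Multiset.map y (range N).val) (lN N + ext d x) := by
    intro j hj
    rw [Pi.add_apply, ext_of_ge _ _ _ hj, ps_range]
    simp only [hlN]
    rw [if_neg (by omega), add_zero]
  have hpos := sign_pos d hd n hn (a + 1 / ((N:ℝ)+1)) (by positivity) (Multiset.map y (range N).val) (y k)
    (lN N + ext d x) (Multiset.mem_map_of_mem y (by simpa using hkN)) hcl2 hxrun
  simp only at hneg2
  linarith

theorem zero_case (d : ℕ) (hd : Even (d+1)) (n : ℕ) (hn : 1 ≤ n) (a : ℝ) (ha : 0 ≤ a) (y : ℕ → ℝ)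
    (hs : Summable (fun k => |y k| ^ (d+1))) (l : ℕ → ℝ) (hcl : ClInf d a y l)
    (hrun : Run (d+1) l n) (hA : A l (n-1) ≠ 0) :
    a = 0 ∧ ∀ k, y k = 0 ∨ A (l + root (y k)) (n-1) = 0 := by
  have hrun' : Run d l n := fun i hi => hrun i (by omega)
  have hsign := limit_sign d hd n hn a ha y hs l hcl hrun' hA
  have h1 := next_general d n hn l hrun'
  rw [hrun d (by omega), mul_zero] at h1
  have h2 : HasSum (fun k => ∑ i ∈ range n, (y k) ^ (d+i+1) * A l (n-1-i))
      (∑ i ∈ range n, (∑' k, (y k) ^ (d+i+1)) * A l (n-1-i)) := by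
    apply hasSum_sum
    intro i hi
    exact (summable_pow d y hs (d+i+1) (by omega)).hasSum.mul_right _
  have h3 : ∀ k, ∑ i ∈ range n, (y k) ^ (d+i+1) * A l (n-1-i) = (y k) ^ (d+1) * A (l + root (y k)) (n-1) := by
    intro k
    rw [A_root, Finset.mul_sum, show n - 1 + 1 = n by omega]
    apply Finset.sum_congr rfl
    intro i hi
    ring
  simp only [h3] at h2
  have h4 : ∑ i ∈ range n, l (d+i) * A l (n-1-i) = -(((d:ℝ)+1) * a * A l (n-1)) -
      ∑ i ∈ range n, (∑' k, (y k) ^ (d+i+1)) * A l (n-1-i) := by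
    have h5 : ∀ i ∈ range n, l (d+i) * A l (n-1-i) =
        -(if i = 0 then ((d:ℝ)+1) * a * A l (n-1) else 0) - (∑' k, (y k) ^ (d+i+1)) * A l (n-1-i) := by
      intro i hi
      rw [hcl (d+i) (by omega)]
      by_cases h : i = 0
      · subst h; simp; ring
      · rw [if_neg (by omega), if_neg h]; ring
    rw [Finset.sum_congr rfl h5, Finset.sum_sub_distrib, Finset.sum_neg_distrib, Finset.sum_ite_eq' (range n) 0,
      if_pos (by simp; omega)]
  rw [h4] at h1
  have h6 := h2.mul_left (A l (n-1))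
  have h7 : ∀ k, 0 ≤ A l (n-1) * ((y k) ^ (d+1) * A (l + root (y k)) (n-1)) := by
    intro k
    have h8 : 0 ≤ (y k) ^ (d+1) := hd.pow_nonneg _
    calc 0 ≤ (y k) ^ (d+1) * (A l (n-1) * A (l + root (y k)) (n-1)) := mul_nonneg h8 (hsign k)
      _ = _ := by ring
  have h8 := HasSum.nonneg h7 h6
  have h9 : 0 < A l (n-1) * A l (n-1) := mul_self_pos.mpr hA
  have h10 : A l (n-1) * (∑ i ∈ range n, (∑' k, (y k) ^ (d+i+1)) * A l (n-1-i)) = -(((d:ℝ)+1) * a * (A l (n-1) * A l (n-1))) := by
    linear_combination (A l (n-1)) * h1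
  have h11 : 0 ≤ ((d:ℝ)+1) * a * (A l (n-1) * A l (n-1)) := by positivity
  have h12 : ((d:ℝ)+1) * a * (A l (n-1) * A l (n-1)) = 0 := by linarith
  have ha0 : a = 0 := by
    rcases mul_eq_zero.mp h12 with h | h
    · rcases mul_eq_zero.mp h with h' | h'
      · exfalso; have : (0:ℝ) < (d:ℝ)+1 := by positivity
        linarith
      · exact h'
    · exfalso; linarith
  refine ⟨ha0, ?_⟩
  rw [h10, h12, neg_zero, hasSum_zero_iff_of_nonneg h7] at h6
  intro k
  have h13 := congrFun h6 k
  simp only [Pi.zero_apply] at h13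
  rcases mul_eq_zero.mp h13 with h | h
  · exact absurd h hA
  · rcases mul_eq_zero.mp h with h' | h'
    · left; exact pow_eq_zero_iff (by omega) |>.mp h'
    · right; exact h'

theorem finite_support (d : ℕ) (n : ℕ) (y : ℕ → ℝ)
    (hs : Summable (fun k => |y k| ^ (d+1))) (l : ℕ → ℝ) (hA : A l n ≠ 0)
    (h : ∀ k, y k = 0 ∨ A (l + root (y k)) n = 0) : {k | y k ≠ 0}.Finite := by
  have hc : Continuous (fun t : ℝ => A (l + root t) n) := by
    apply continuous_A (fun t : ℝ => l + root t)
    intro j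
    simp only [Pi.add_apply, root]
    fun_prop
  have h1 : ∀ᶠ t in 𝓝 (0:ℝ), A (l + root t) n ≠ 0 := by
    apply hc.continuousAt.eventually_ne
    rw [root_zero, add_zero]; exact hA
  have h2 := (tendsto_zero_of_summable d y hs).eventually h1
  rw [← Nat.cofinite_eq_atTop, Filter.eventually_cofinite] at h2
  apply h2.subset
  intro k hk
  simp only [Set.mem_ofPred_eq, not_not] at hk ⊢
  rcases h k with h3 | h3
  · exact absurd h3 hk
  · exact h3

theorem exists_min_run (d n : ℕ) (hn : 1 ≤ n) (l : ℕ → ℝ) (hrun : Run (d+1) l n) :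
    ∃ m, 1 ≤ m ∧ Run (d+1) l m ∧ A l (m-1) ≠ 0 := by
  induction n with
  | zero => omega
  | succ n ih =>
    by_cases h : A l n = 0
    · by_cases h0 : n = 0
      · subst h0; rw [A_zero] at h; exact absurd h one_ne_zero
      · apply ih (by omega)
        intro i hi
        rcases i with _ | i
        · exact h
        · have := hrun i (by omega)
          rwa [show n + (i+1) = n + 1 + i by omega]
    · exact ⟨n+1, by omega, hrun, h⟩

theorem tsum_update (y : ℕ → ℝ) (hfin : {k | y k ≠ 0}.Finite) (k0 j : ℕ) :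
    ∑' k, (y k) ^ (j+1) = (y k0) ^ (j+1) + ∑' k, (Function.update y k0 0 k) ^ (j+1) := by
  have hsum : Summable (fun k => (y k) ^ (j+1)) := by
    apply summable_of_hasFiniteSupport
    apply hfin.subset
    intro k hk h0
    apply hk
    simp [h0]
  rw [hsum.tsum_eq_add_tsum_ite k0]
  congr 1
  apply tsum_congr
  intro k
  by_cases h : k = k0
  · subst h; simp
  · simp [h]

theorem final_seq (d : ℕ) (hd : Even (d+1)) : ∀ D : ℕ, ∀ (y : ℕ → ℝ) (hfin : {k | y k ≠ 0}.Finite),
    hfin.toFinset.card = D → ∀ l : ℕ → ℝ, ClInf d 0 y l → ∀ n, 1 ≤ n → Run (d+1) l n →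
    ∀ j < d, l j = - ∑' k, (y k) ^ (j+1) := by
  intro D
  induction D with
  | zero =>
    intro y hfin hcard l hcl n hn hrun j hj
    have hy : ∀ k, y k = 0 := by
      intro k
      by_contra hk
      have : k ∈ hfin.toFinset := by simpa using hk
      rw [Finset.card_eq_zero] at hcard
      rw [hcard] at this
      simp at this
    have h1 : ∀ j, d ≤ j → l j = 0 := by
      intro j hj
      rw [hcl j hj]; simp [hy]
    rw [E0 d l h1 n hn (fun i hi => hrun i (by omega)) j]
    simp [hy]
  | succ D ih =>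
    intro y hfin hcard l hcl n hn hrun j hj
    obtain ⟨k0, hk0⟩ : ∃ k0, k0 ∈ hfin.toFinset := by
      apply Finset.Nonempty.exists_mem
      rw [← Finset.card_pos]; omega
    have hk0' : y k0 ≠ 0 := by simpa using hk0
    obtain ⟨m, hm, hrunm, hAm⟩ := exists_min_run d n hn l hrun
    have hs : Summable (fun k => |y k| ^ (d+1)) := by
      apply summable_of_hasFiniteSupport
      apply hfin.subset
      intro k hk h0
      apply hk
      simp [h0]
    obtain ⟨-, hz⟩ := zero_case d hd m hm 0 le_rfl y hs l hcl hrunm hAm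
    have hz0 : A (l + root (y k0)) (m-1) = 0 := by
      rcases hz k0 with h | h
      · exact absurd h hk0'
      · exact h
    have hm1 : 1 ≤ m - 1 := by
      by_contra h
      have : m - 1 = 0 := by omega
      rw [this, A_zero] at hz0
      exact one_ne_zero hz0
    have hrun2 : Run (d+1) (l + root (y k0)) (m-1) := by
      intro i
      induction i with
      | zero => intro _; exact hz0
      | succ i ih =>
        intro hi
        have h1 := hrunm i (by omega)
        rw [← add_assoc, A_root_succ, ih (by omega), mul_zero, zero_add, show m - 1 + i + 1 = m + i by omega]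
        exact h1
    have hfin2 : {k | Function.update y k0 0 k ≠ 0}.Finite := by
      apply hfin.subset
      intro k hk
      simp only [Set.mem_ofPred_eq] at hk ⊢
      intro h0
      apply hk
      by_cases h : k = k0
      · subst h; simp
      · rw [Function.update_of_ne h]; exact h0
    have hcard2 : hfin2.toFinset.card = D := by
      have : hfin2.toFinset = hfin.toFinset.erase k0 := by
        ext k
        simp only [Set.Finite.mem_toFinset, Set.mem_ofPred_eq, Finset.mem_erase]
        by_cases h : k = k0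
        · subst h; simp
        · rw [Function.update_of_ne h]; simp [h]
      rw [this, Finset.card_erase_of_mem hk0, hcard]; rfl
    have hcl2 : ClInf d 0 (Function.update y k0 0) (l + root (y k0)) := by
      intro j hj
      rw [Pi.add_apply, hcl j hj, tsum_update y hfin k0 j, root]; ring
    have := ih (Function.update y k0 0) hfin2 hcard2 (l + root (y k0)) hcl2 (m-1) hm1 hrun2 j hj
    rw [Pi.add_apply, root] at this
    rw [tsum_update y hfin k0 j]
    linarith

theorem seq_main (d : ℕ) (hd : Even (d+1)) (a : ℝ) (ha : 0 ≤ a) (y : ℕ → ℝ)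
    (hs : Summable (fun k => |y k| ^ (d+1))) (l : ℕ → ℝ) (hcl : ClInf d a y l)
    (n : ℕ) (hn : 1 ≤ n) (hrun : Run (d+1) l n) :
    a = 0 ∧ {k | y k ≠ 0}.Finite ∧ ∀ j < d, l j = - ∑' k, (y k) ^ (j+1) := by
  obtain ⟨m, hm, hrunm, hAm⟩ := exists_min_run d n hn l hrun
  obtain ⟨ha0, hz⟩ := zero_case d hd m hm a ha y hs l hcl hrunm hAm
  have hfin := finite_support d (m-1) y hs l hAm hz
  subst ha0
  exact ⟨rfl, hfin, final_seq d hd _ y hfin rfl l hcl n hn hrun⟩

end Pool.Agent.Helper233.LP
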