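import Mathlib
set_option autoImplicit false
namespace Pool.Agent.Helper233.LP
open Finset Filter Topology

noncomputable def A (l : ℕ → ℝ) : ℕ → ℝ
  | 0 => 1
  | (m+1) => (∑ j : Fin (m+1), l j * A l (m - j)) / (m+1)

theorem A_zero (l : ℕ → ℝ) : A l 0 = 1 := by rw [A]

theorem A_succ (l : ℕ → ℝ) (m : ℕ) :
    ((m:ℝ)+1) * A l (m+1) = ∑ j ∈ range (m+1), l j * A l (m-j) := by
  have h : ((m:ℝ)+1) ≠ 0 := by positivity
  rw [A, mul_div_cancel₀ _ h, Finset.sum_range]

theorem A_unique (l u : ℕ → ℝ) (h0 : u 0 = 1)
    (h : ∀ m : ℕ, ((m:ℝ)+1) * u (m+1) = ∑ j ∈ range (m+1), l j * u (m-j)) : ∀ m, u m = A l m := by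
  intro m
  induction m using Nat.strong_induction_on with
  | _ m ih =>
    rcases m with _ | m
    · rw [h0, A_zero]
    · have hm : ((m:ℝ)+1) ≠ 0 := by positivity
      apply mul_left_cancel₀ hm
      rw [h, A_succ]
      apply Finset.sum_congr rfl
      intro j hj
      rw [ih (m-j) (by omega)]

theorem A_unique_complex (l : ℕ → ℝ) (u : ℕ → ℂ) (h0 : u 0 = 1)
    (h : ∀ m : ℕ, ((m:ℂ)+1) * u (m+1) = ∑ j ∈ range (m+1), (l j : ℂ) * u (m-j)) :
    ∀ m, u m = (A l m : ℂ) := by
  intro m
  induction m using Nat.strong_induction_on with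
  | _ m ih =>
    rcases m with _ | m
    · rw [h0, A_zero]; simp
    · have hm : ((m:ℂ)+1) ≠ 0 := by exact_mod_cast Nat.succ_ne_zero m
      apply mul_left_cancel₀ hm
      have := A_succ l m
      have h2 : ((m:ℂ)+1) * (A l (m+1) : ℂ) = ∑ j ∈ range (m+1), (l j : ℂ) * (A l (m-j) : ℂ) := by
        exact_mod_cast this
      rw [h, h2]
      apply Finset.sum_congr rfl
      intro j hj
      rw [ih (m-j) (by omega)]

theorem A_congr (l l' : ℕ → ℝ) (m : ℕ) (h : ∀ j < m, l j = l' j) : A l m = A l' m := by
  induction m using Nat.strong_induction_on with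
  | _ m ih =>
    rcases m with _ | m
    · rw [A_zero, A_zero]
    · have hm : ((m:ℝ)+1) ≠ 0 := by positivity
      apply mul_left_cancel₀ hm
      rw [A_succ, A_succ]
      apply Finset.sum_congr rfl
      intro j hj
      rw [ih (m-j) (by omega) (fun j hj => h j (by omega)), h j (by simpa using hj)]

/-- power series formulation -/
theorem A_ps (l : ℕ → ℝ) : PowerSeries.derivative ℝ (PowerSeries.mk (A l)) = PowerSeries.mk l * PowerSeries.mk (A l) := by
  ext m
  rw [PowerSeries.coeff_derivative, PowerSeries.coeff_mul, PowerSeries.coeff_mk,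
    Finset.Nat.sum_antidiagonal_eq_sum_range_succ (fun i j => PowerSeries.coeff i (PowerSeries.mk l) * PowerSeries.coeff j (PowerSeries.mk (A l)))]
  have := A_succ l m
  simp only [PowerSeries.coeff_mk]
  rw [← this]; ring

theorem A_unique_ps (l : ℕ → ℝ) (G : PowerSeries ℝ) (h0 : PowerSeries.coeff 0 G = 1)
    (h : PowerSeries.derivative ℝ G = PowerSeries.mk l * G) : ∀ m, PowerSeries.coeff m G = A l m := by
  apply A_unique l (fun m => PowerSeries.coeff m G) h0
  intro m
  have := congrArg (PowerSeries.coeff m) h
  rw [PowerSeries.coeff_derivative, PowerSeries.coeff_mul,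
    Finset.Nat.sum_antidiagonal_eq_sum_range_succ (fun i j => PowerSeries.coeff i (PowerSeries.mk l) * PowerSeries.coeff j G)] at this
  simp only [PowerSeries.coeff_mk] at this
  rw [← this]; ring

/-- the root part -/
def root (y : ℝ) : ℕ → ℝ := fun j => y ^ (j+1)

theorem A_root (l : ℕ → ℝ) (y : ℝ) (m : ℕ) :
    A (l + root y) m = ∑ i ∈ range (m+1), y ^ i * A l (m - i) := by
  set c : ℕ → ℝ := fun m => ∑ i ∈ range (m+1), y ^ i * A l (m - i) with hc
  have hc1 : ∀ m, c (m+1) = y * c m + A l (m+1) := by
    intro m
    simp only [hc]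
    rw [Finset.sum_range_succ' _ (m+1), Finset.mul_sum]
    simp only [pow_zero, one_mul, Nat.sub_zero]
    congr 1
    apply Finset.sum_congr rfl
    intro i hi
    rw [show m + 1 - (i+1) = m - i by omega]; ring
  have hc0 : c 0 = 1 := by simp [hc, A_zero]
  have hq : (1 - PowerSeries.C y * PowerSeries.X : PowerSeries ℝ) ≠ 0 := by
    intro h
    have := congrArg (PowerSeries.coeff 0) h
    simp at this
  have hC : PowerSeries.mk c * (1 - PowerSeries.C y * PowerSeries.X) = PowerSeries.mk (A l) := by
    ext m
    rcases m with _ | m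
    · simp [hc0, A_zero]
    · rw [mul_sub, mul_one, ← mul_assoc, map_sub, PowerSeries.coeff_succ_mul_X, mul_comm (PowerSeries.mk c),
        PowerSeries.coeff_C_mul]
      simp only [PowerSeries.coeff_mk]
      rw [hc1]; ring
  have hR : PowerSeries.mk (root y) * (1 - PowerSeries.C y * PowerSeries.X) = PowerSeries.C y := by
    ext m
    rcases m with _ | m
    · simp [root]
    · rw [mul_sub, mul_one, ← mul_assoc, map_sub, PowerSeries.coeff_succ_mul_X, mul_comm (PowerSeries.mk (root y)),
        PowerSeries.coeff_C_mul]
      simp only [PowerSeries.coeff_mk, root]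
      rw [PowerSeries.coeff_C, if_neg (by omega)]; ring
  have hadd : PowerSeries.mk (l + root y) = PowerSeries.mk l + PowerSeries.mk (root y) := by
    ext m; simp
  have key : PowerSeries.derivative ℝ (PowerSeries.mk c) = PowerSeries.mk (l + root y) * PowerSeries.mk c := by
    apply mul_right_cancel₀ hq
    have h1 := congrArg (PowerSeries.derivative ℝ) hC
    rw [A_ps, ← hC] at h1
    have h2 : PowerSeries.derivative ℝ (PowerSeries.mk c * (1 - PowerSeries.C y * PowerSeries.X))
       = PowerSeries.derivative ℝ (PowerSeries.mk c) * (1 - PowerSeries.C y * PowerSeries.X) - PowerSeries.mk c * PowerSeries.C y := by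
      rw [Derivation.leibniz]
      simp only [map_sub, Derivation.leibniz, smul_eq_mul, PowerSeries.derivative_X, PowerSeries.derivative_C]
      simp
      ring
    rw [h2] at h1
    rw [hadd, add_mul, add_mul]
    rw [mul_assoc (PowerSeries.mk (root y)), mul_comm (PowerSeries.mk c) (1 - _), ← mul_assoc (PowerSeries.mk (root y)), hR]
    rw [mul_comm (PowerSeries.mk c) (1 - _)] at h1
    linear_combination h1
  have := A_unique_ps (l + root y) (PowerSeries.mk c) (by simp [hc0]) key m
  rw [← this]; simp [hc]

theorem A_root_succ (l : ℕ → ℝ) (y : ℝ) (m : ℕ) :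
    A (l + root y) (m+1) = y * A (l + root y) m + A l (m+1) := by
  rw [A_root, A_root, Finset.sum_range_succ' _ (m+1), Finset.mul_sum]
  simp only [pow_zero, one_mul, Nat.sub_zero]
  congr 1
  apply Finset.sum_congr rfl
  intro i hi
  rw [show m + 1 - (i+1) = m - i by omega]; ring

theorem A_scale (l : ℕ → ℝ) (r : ℝ) (m : ℕ) :
    A (fun j => r ^ (j+1) * l j) m = r ^ m * A l m := by
  symm
  apply A_unique (fun j => r ^ (j+1) * l j) (fun m => r ^ m * A l m)
  · simp [A_zero]
  · intro m
    have := A_succ l m
    calc ((m:ℝ)+1) * (r ^ (m+1) * A l (m+1)) = r ^ (m+1) * (((m:ℝ)+1) * A l (m+1)) := by ring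
      _ = _ := by
        rw [this, Finset.mul_sum]
        apply Finset.sum_congr rfl
        intro j hj
        have hj' : j < m+1 := by simpa using hj
        have h1 : r ^ (m+1) = r ^ (j+1) * r ^ (m-j) := by
          rw [← pow_add]; congr 1; omega
        rw [h1]
        ring

theorem continuous_A {X : Type*} [TopologicalSpace X] (l : X → ℕ → ℝ)
    (h : ∀ j, Continuous (fun x => l x j)) (m : ℕ) : Continuous (fun x => A (l x) m) := by
  induction m using Nat.strong_induction_on with
  | _ m ih =>
    rcases m with _ | m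
    · simp only [A_zero]; exact continuous_const
    · have : (fun x => A (l x) (m+1)) = fun x => (∑ j ∈ range (m+1), l x j * A (l x) (m-j)) / ((m:ℝ)+1) := by
        funext x
        rw [← A_succ, mul_div_cancel_left₀]
        positivity
      rw [this]
      apply Continuous.div_const
      apply continuous_finsetSum
      intro j hj
      exact (h j).mul (ih (m-j) (by omega))

theorem contDiff_A {E : Type*} [NormedAddCommGroup E] [NormedSpace ℝ E] (l : E → ℕ → ℝ)
    (h : ∀ j, ContDiff ℝ 1 (fun x => l x j)) (m : ℕ) : ContDiff ℝ 1 (fun x => A (l x) m) := by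
  induction m using Nat.strong_induction_on with
  | _ m ih =>
    rcases m with _ | m
    · simp only [A_zero]; exact contDiff_const
    · have : (fun x => A (l x) (m+1)) = fun x => (∑ j ∈ range (m+1), l x j * A (l x) (m-j)) / ((m:ℝ)+1) := by
        funext x
        rw [← A_succ, mul_div_cancel_left₀]
        positivity
      rw [this]
      apply ContDiff.div_const
      apply ContDiff.sum
      intro j hj
      exact (h j).mul (ih (m-j) (by omega))

/-- directional derivative coefficients -/
noncomputable def D (l v : ℕ → ℝ) (m : ℕ) : ℝ :=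
  ∑ j ∈ range m, v j / ((j:ℝ)+1) * A l (m - 1 - j)

theorem D_succ (l v : ℕ → ℝ) (m : ℕ) :
    ((m:ℝ)+1) * D l v (m+1) = ∑ j ∈ range (m+1), (v j * A l (m-j) + l j * D l v (m-j)) := by
  set w : ℕ → ℝ := fun k => if k = 0 then 0 else v (k-1) / (k:ℝ) with hw
  have hDW : ∀ m, D l v m = PowerSeries.coeff m (PowerSeries.mk w * PowerSeries.mk (A l)) := by
    intro m
    rw [PowerSeries.coeff_mul, Finset.Nat.sum_antidiagonal_eq_sum_range_succ (fun i j => PowerSeries.coeff i (PowerSeries.mk w) * PowerSeries.coeff j (PowerSeries.mk (A l)))]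
    simp only [PowerSeries.coeff_mk]
    rw [Finset.sum_range_succ', D]
    simp only [hw, if_true, zero_mul, add_zero]
    apply Finset.sum_congr rfl
    intro j hj
    rw [if_neg (by omega), Nat.add_sub_cancel, show m - (j+1) = m - 1 - j by omega]
    push_cast
    ring
  have hW : PowerSeries.derivative ℝ (PowerSeries.mk w) = PowerSeries.mk v := by
    ext m
    rw [PowerSeries.coeff_derivative]
    simp only [PowerSeries.coeff_mk, hw]
    rw [if_neg (by omega), Nat.add_sub_cancel]
    have : ((m:ℝ)+1) ≠ 0 := by positivity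
    push_cast
    field_simp
  have key : PowerSeries.derivative ℝ (PowerSeries.mk w * PowerSeries.mk (A l)) =
      PowerSeries.mk v * PowerSeries.mk (A l) + PowerSeries.mk l * (PowerSeries.mk w * PowerSeries.mk (A l)) := by
    rw [Derivation.leibniz, hW, A_ps]
    simp only [smul_eq_mul]
    ring
  have := congrArg (PowerSeries.coeff m) key
  rw [PowerSeries.coeff_derivative, ← hDW, map_add, PowerSeries.coeff_mul, PowerSeries.coeff_mul,
    Finset.Nat.sum_antidiagonal_eq_sum_range_succ (fun i j => PowerSeries.coeff i (PowerSeries.mk v) * PowerSeries.coeff j (PowerSeries.mk (A l))),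
    Finset.Nat.sum_antidiagonal_eq_sum_range_succ (fun i j => PowerSeries.coeff i (PowerSeries.mk l) * PowerSeries.coeff j (PowerSeries.mk w * PowerSeries.mk (A l)))] at this
  simp only [← hDW, PowerSeries.coeff_mk] at this
  rw [mul_comm, this, Finset.sum_add_distrib]

theorem hasDerivAt_A (l v : ℕ → ℝ) (m : ℕ) :
    HasDerivAt (fun t : ℝ => A (fun j => l j + t * v j) m) (D l v m) 0 := by
  induction m using Nat.strong_induction_on with
  | _ m ih =>
    rcases m with _ | m
    · simp only [A_zero, D, Finset.range_zero, Finset.sum_empty]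
      exact hasDerivAt_const _ _
    · have hm : ((m:ℝ)+1) ≠ 0 := by positivity
      have : (fun t : ℝ => A (fun j => l j + t * v j) (m+1)) =
          fun t => (∑ j ∈ range (m+1), (l j + t * v j) * A (fun j => l j + t * v j) (m-j)) / ((m:ℝ)+1) := by
        funext x
        rw [← A_succ (fun j => l j + x * v j), mul_div_cancel_left₀]
        positivity
      rw [this]
      have hD : D l v (m+1) = (∑ j ∈ range (m+1), (v j * A l (m-j) + l j * D l v (m-j))) / ((m:ℝ)+1) := by
        rw [← D_succ, mul_div_cancel_left₀ _ hm]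
      rw [hD]
      apply HasDerivAt.div_const
      apply HasDerivAt.fun_sum
      intro j hj
      have h1 : HasDerivAt (fun t : ℝ => l j + t * v j) (v j) 0 := by
        have := ((hasDerivAt_id (0:ℝ)).mul_const (v j)).const_add (l j)
        simpa using this
      have h2 := h1.fun_mul (ih (m-j) (by omega))
      have e1 : (fun j => l j + 0 * v j) = l := by funext j; ring
      rw [e1, zero_mul, add_zero] at h2
      exact h2

/-- run of `d` zeros of the coefficient sequence, starting at `n` -/
def Run (d : ℕ) (l : ℕ → ℝ) (n : ℕ) : Prop := ∀ i < d, A l (n+i) = 0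

theorem D_run (d : ℕ) (l v : ℕ → ℝ) (n : ℕ) (hn : 1 ≤ n) (hrun : Run d l n) (hA : A l (n-1) ≠ 0)
    (hv : ∀ j, d ≤ j → v j = 0) (hD : ∀ i < d, D l v (n+i) = 0) : ∀ j, v j = 0 := by
  -- descending induction
  have key : ∀ k, ∀ j, d ≤ j + k → v j = 0 := by
    intro k
    induction k with
    | zero => intro j hj; exact hv j hj
    | succ k ih =>
      intro j hj
      by_cases hj2 : d ≤ j + k
      · exact ih j hj2
      · have hjd : j < d := by omega
        have h1 := hD j hjd
        rw [D, Finset.sum_eq_single j] at h1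
        · rw [show n + j - 1 - j = n - 1 by omega] at h1
          have h2 : ((j:ℝ)+1) ≠ 0 := by positivity
          rcases mul_eq_zero.mp h1 with h3 | h3
          · rcases div_eq_zero_iff.mp h3 with h4 | h4
            · exact h4
            · exact absurd h4 h2
          · exact absurd h3 hA
        · intro i hi hij
          rcases lt_or_gt_of_ne hij with h | h
          · rw [show n + j - 1 - i = n + (j - 1 - i) by omega, hrun (j-1-i) (by omega), mul_zero]
          · rw [ih i (by omega)]; simp
        · intro h
          exact absurd (Finset.mem_range.mpr (by omega)) h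
  intro j
  exact key d j (by omega)

theorem E0 (d : ℕ) (l : ℕ → ℝ) (hl : ∀ j, d ≤ j → l j = 0) (n : ℕ) (hn : 1 ≤ n) (hrun : Run d l n) :
    ∀ j, l j = 0 := by
  have h0 : ∀ m, n ≤ m → A l m = 0 := by
    intro m
    induction m using Nat.strong_induction_on with
    | _ m ih =>
      intro hm
      by_cases hmd : m < n + d
      · have := hrun (m - n) (by omega)
        rwa [show n + (m - n) = m by omega] at this
      · rcases m with _ | m
        · omega
        · have hm' : ((m:ℝ)+1) ≠ 0 := by positivity
          apply mul_left_cancel₀ hm'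
          rw [A_succ, mul_zero]
          apply Finset.sum_eq_zero
          intro j hj
          by_cases hjd : d ≤ j
          · rw [hl j hjd, zero_mul]
          · rw [ih (m-j) (by omega) (by omega), mul_zero]
  -- the largest nonzero index
  obtain ⟨m0, hm0, hmax⟩ : ∃ m0, A l m0 ≠ 0 ∧ ∀ m, m0 < m → A l m = 0 := by
    by_contra hcon
    push Not at hcon
    have : ∀ k, ∃ m, k ≤ m ∧ A l m ≠ 0 := by
      intro k
      induction k with
      | zero => exact ⟨0, le_refl _, by rw [A_zero]; exact one_ne_zero⟩
      | succ k ih =>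
        obtain ⟨m, hkm, hm⟩ := ih
        obtain ⟨m', h1, h2⟩ := hcon m hm
        exact ⟨m', by omega, h2⟩
    obtain ⟨m, hm1, hm2⟩ := this n
    exact hm2 (h0 m hm1)
  have key : ∀ k, ∀ j, d ≤ j + k → l j = 0 := by
    intro k
    induction k with
    | zero => intro j hj; exact hl j hj
    | succ k ih =>
      intro j hj
      by_cases hj2 : d ≤ j + k
      · exact ih j hj2
      · have h1 := A_succ l (m0 + j)
        rw [hmax (m0+j+1) (by omega), mul_zero, Finset.sum_eq_single j] at h1
        · rw [show m0 + j - j = m0 by omega] at h1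
          rcases mul_eq_zero.mp h1.symm with h2 | h2
          · exact h2
          · exact absurd h2 hm0
        · intro i hi hij
          rcases lt_or_gt_of_ne hij with h | h
          · rw [hmax (m0 + j - i) (by omega), mul_zero]
          · rw [ih i (by omega)]; simp
        · intro h
          exact absurd (Finset.mem_range.mpr (by omega)) h
  intro j
  exact key d j (by omega)

end Pool.Agent.Helper233.LP
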