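import Pool.Agent.Helper233.LP.Loc
set_option autoImplicit false
namespace Pool.Agent.Helper233.LP
open Finset Filter Topology

theorem isClosed_run {X : Type*} [TopologicalSpace X] (L : X → ℕ → ℝ)
    (hL : ∀ j, Continuous (fun q => L q j)) (d n : ℕ) : IsClosed {q | Run d (L q) n} := by
  have : {q | Run d (L q) n} = ⋂ i : ℕ, ⋂ _ : i < d, {q | A (L q) (n+i) = 0} := by
    ext q; simp [Run]
  rw [this]
  apply isClosed_iInter
  intro i
  apply isClosed_iInter
  intro _
  exact isClosed_eq (continuous_A L hL _) continuous_const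

theorem run_scale (d n : ℕ) (l : ℕ → ℝ) (t : ℝ) (h : Run d l n) :
    Run d (fun j => t ^ (j+1) * l j) n := by
  intro i hi
  rw [A_scale, h i hi, mul_zero]

theorem bounded_run {X : Type*} [TopologicalSpace X] (K : Set X) (hK : IsCompact K) (d n : ℕ) (hn : 1 ≤ n)
    (r : X → ℕ → ℝ) (hr : ∀ j, Continuous (fun s => r s j)) :
    ∃ M : ℝ, ∀ s ∈ K, ∀ x : Fin d → ℝ, Run d (ext d x + r s) n → ‖x‖ ≤ M := by
  set L : ℝ × X × (Fin d → ℝ) → ℕ → ℝ := fun q j => ext d q.2.2 j + q.1 ^ (j+1) * r q.2.1 j with hL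
  have hLc : ∀ j, Continuous (fun q => L q j) := by
    intro j
    apply Continuous.add
    · exact (continuous_ext d j).comp (continuous_snd.comp continuous_snd)
    · exact (continuous_fst.pow _).mul ((hr j).comp (continuous_fst.comp continuous_snd))
  set T : Set (ℝ × X × (Fin d → ℝ)) := (Set.Icc (0:ℝ) 1 ×ˢ K ×ˢ Metric.sphere (0 : Fin d → ℝ) 1) ∩ {q | Run d (L q) n} with hT
  have hTc : IsCompact T := by
    apply IsCompact.inter_right
    · exact isCompact_Icc.prod (hK.prod (isCompact_sphere _ _))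
    · exact isClosed_run L hLc d n
  have hTpos : ∀ q ∈ T, 0 < q.1 := by
    intro q hq
    obtain ⟨⟨h1, h2, h3⟩, h4⟩ := hq
    rcases lt_or_eq_of_le h1.1 with h | h
    · exact h
    · exfalso
      have hLe : L q = ext d q.2.2 := by
        funext j
        simp only [hL]
        rw [← h]; simp
      have h5 : Run d (L q) n := h4
      rw [hLe] at h5
      have h6 := E0 d _ (fun j hj => ext_of_ge d _ j hj) n hn h5
      have h7 : q.2.2 = 0 := by
        funext i
        have := h6 i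
        rw [ext_of_lt _ _ _ i.2] at this
        exact this
      rw [h7] at h3
      simp at h3
  have hin : ∀ s ∈ K, ∀ x : Fin d → ℝ, Run d (ext d x + r s) n → 1 ≤ ‖x‖ →
      ∃ t u, (t, s, u) ∈ T ∧ ∀ i, u i = t ^ ((i:ℕ)+1) * x i := by
    intro s hs x hx h1
    set φ : ℝ → (Fin d → ℝ) := fun t i => t ^ ((i:ℕ)+1) * x i with hφ
    have hφc : Continuous φ := by
      rw [continuous_pi_iff]
      intro i
      simp only [hφ]
      fun_prop
    have hφ0 : φ 0 = 0 := by
      funext i; simp [hφ]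
    have hφ1 : φ 1 = x := by
      funext i; simp [hφ]
    have hivt := intermediate_value_Icc (zero_le_one' ℝ) (hφc.norm.continuousOn (s := Set.Icc 0 1))
    have h1' : (1:ℝ) ∈ Set.Icc ‖φ 0‖ ‖φ 1‖ := by
      rw [hφ0, hφ1, norm_zero]; exact ⟨zero_le_one, h1⟩
    obtain ⟨t, ht, ht1⟩ := hivt h1'
    refine ⟨t, φ t, ⟨⟨ht, hs, ?_⟩, ?_⟩, fun i => rfl⟩
    · simpa using ht1
    · have h2 := run_scale d n _ t hx
      have h3 : (fun j => t ^ (j+1) * (ext d x + r s) j) = L (t, s, φ t) := by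
        funext j
        simp only [hL, Pi.add_apply]
        by_cases hj : j < d
        · rw [ext_of_lt _ _ _ hj, ext_of_lt _ _ _ hj]
          simp only [hφ]; ring
        · rw [ext_of_ge _ _ _ (by omega), ext_of_ge _ _ _ (by omega)]; ring
      rw [h3] at h2
      exact h2
  by_cases hne : T.Nonempty
  · obtain ⟨q0, hq0, hmin⟩ := hTc.exists_isMinOn hne (continuous_fst.continuousOn)
    have hq0pos := hTpos q0 hq0
    refine ⟨1 + (q0.1 ^ d)⁻¹, ?_⟩
    intro s hs x hx
    have hpos : 0 < (q0.1 ^ d)⁻¹ := by positivity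
    by_cases h1 : 1 ≤ ‖x‖
    · obtain ⟨t, u, htu, hu⟩ := hin s hs x hx h1
      have ht0 : q0.1 ≤ t := hmin htu
      have ht1 : t ≤ 1 := htu.1.1.2
      have hun : ‖u‖ = 1 := by
        have := htu.1.2.2
        simpa using this
      rw [pi_norm_le_iff_of_nonneg (by positivity)]
      intro i
      have h2 : ‖u i‖ ≤ 1 := by
        rw [← hun]; exact norm_le_pi_norm u i
      rw [hu i, norm_mul, norm_pow, Real.norm_eq_abs, Real.norm_eq_abs, abs_of_pos (lt_of_lt_of_le hq0pos ht0)] at h2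
      have h3 : q0.1 ^ d ≤ t ^ ((i:ℕ)+1) := by
        calc q0.1 ^ d ≤ t ^ d := pow_le_pow_left₀ hq0pos.le ht0 d
          _ ≤ t ^ ((i:ℕ)+1) := pow_le_pow_of_le_one (hq0pos.le.trans ht0) ht1 (by omega)
      have h4 : q0.1 ^ d * |x i| ≤ 1 := (mul_le_mul_of_nonneg_right h3 (abs_nonneg _)).trans h2
      have h5 : |x i| ≤ (q0.1 ^ d)⁻¹ := by
        rw [← one_div, le_div_iff₀ (by positivity)]
        linarith
      rw [Real.norm_eq_abs]
      linarith
    · linarith
  · refine ⟨1, ?_⟩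
    intro s hs x hx
    by_contra h
    obtain ⟨t, u, htu, -⟩ := hin s hs x hx (by linarith)
    exact hne ⟨_, htu⟩

/-- power sums -/
noncomputable def ps (Y : Multiset ℝ) (j : ℕ) : ℝ := (Y.map (fun y => y ^ j)).sum

theorem ps_cons (y : ℝ) (Y : Multiset ℝ) (j : ℕ) : ps (y ::ₘ Y) j = y ^ j + ps Y j := by
  simp [ps]

/-- logarithmic derivative coefficients with finitely many roots -/
def Cl (d : ℕ) (a : ℝ) (Y : Multiset ℝ) (l : ℕ → ℝ) : Prop :=
  ∀ j, d ≤ j → l j = -(if j = d then ((d:ℝ)+1) * a else 0) - ps Y (j+1)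

theorem Cl_root (d : ℕ) (a y : ℝ) (Y : Multiset ℝ) (l : ℕ → ℝ) (h : Cl d a (y ::ₘ Y) l) :
    Cl d a Y (l + root y) := by
  intro j hj
  rw [Pi.add_apply, h j hj, ps_cons, root]; ring

theorem next_general (d n : ℕ) (hn : 1 ≤ n) (l : ℕ → ℝ) (hrun : Run d l n) :
    ((n:ℝ) + d) * A l (n+d) = ∑ i ∈ range n, l (d+i) * A l (n-1-i) := by
  obtain ⟨m, rfl⟩ : ∃ m, n = m + 1 := ⟨n-1, by omega⟩
  have h1 := A_succ l (m+d)
  rw [show m + d + 1 = d + (m+1) by omega, Finset.sum_range_add] at h1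
  rw [show m + 1 + d = d + (m+1) by omega]
  push_cast at h1 ⊢
  rw [show ((m:ℝ) + 1 + d) = (m + d + 1) by ring, h1, Finset.sum_eq_zero, zero_add]
  · apply Finset.sum_congr rfl
    intro i hi
    rw [show m + d - (d + i) = m - i by omega]
  · intro j hj
    have hj' : j < d := by simpa using hj
    rw [show m + d - j = m + 1 + (d - 1 - j) by omega, hrun (d-1-j) (by omega), mul_zero]

theorem next_Cl (d n : ℕ) (hn : 1 ≤ n) (a : ℝ) (Y : Multiset ℝ) (l : ℕ → ℝ) (hcl : Cl d a Y l)
    (hrun : Run d l n) :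
    ((n:ℝ) + d) * A l (n+d) = -(((d:ℝ)+1) * a * A l (n-1))
      - (Y.map (fun y => y ^ (d+1) * A (l + root y) (n-1))).sum := by
  rw [next_general d n hn l hrun]
  obtain ⟨m, rfl⟩ : ∃ m, n = m + 1 := ⟨n-1, by omega⟩
  simp only [Nat.add_sub_cancel]
  have h1 : ∀ i ∈ range (m+1), l (d+i) * A l (m - i) =
      -(if i = 0 then ((d:ℝ)+1) * a * A l m else 0) - ps Y (d+i+1) * A l (m-i) := by
    intro i hi
    rw [hcl (d+i) (by omega)]
    by_cases h : i = 0
    · subst h; simp; ring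
    · rw [if_neg (by omega), if_neg h]; ring
  rw [Finset.sum_congr rfl h1, Finset.sum_sub_distrib, Finset.sum_neg_distrib, Finset.sum_ite_eq' (range (m+1)) 0,
    if_pos (by simp)]
  congr 1
  clear hcl h1
  induction Y using Multiset.induction_on with
  | empty => simp [ps]
  | cons y Y ih =>
    rw [Multiset.map_cons, Multiset.sum_cons, ← ih, A_root, Finset.mul_sum, ← Finset.sum_add_distrib]
    apply Finset.sum_congr rfl
    intro i hi
    rw [ps_cons]; ring

theorem root_zero : root 0 = 0 := by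
  funext j; simp [root]

/-- sign of the product, by continuity in the moved root -/
theorem sign_step (d n : ℕ)
    (hNo : ∀ a : ℝ, 0 < a → ∀ (Y : Multiset ℝ) (l : ℕ → ℝ), Cl d a Y l → ¬ Run (d+1) l n)
    (a : ℝ) (ha : 0 < a) (Y : Multiset ℝ) (y : ℝ) (l : ℕ → ℝ) (hcl : Cl d a (y ::ₘ Y) l)
    (hrun : Run d l (n+1)) : 0 < A l n * A (l + root y) n := by
  -- nonvanishing facts
  have hA0 : ∀ (Y : Multiset ℝ) (l : ℕ → ℝ), Cl d a Y l → Run d l (n+1) → A l n ≠ 0 := by
    intro Y l hcl hrun h0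
    apply hNo a ha Y l hcl
    intro i hi
    rcases i with _ | i
    · exact h0
    · have := hrun i (by omega)
      rwa [show n + (i+1) = n + 1 + i by omega]
  have hC0 : ∀ (Y : Multiset ℝ) (y : ℝ) (l : ℕ → ℝ), Cl d a (y ::ₘ Y) l → Run d l (n+1) →
      A (l + root y) n ≠ 0 := by
    intro Y y l hcl hrun h0
    apply hNo a ha Y (l + root y) (Cl_root d a y Y l hcl)
    intro i
    induction i with
    | zero => intro _; exact h0
    | succ i ih =>
      intro hi
      have h1 := hrun i (by omega)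
      rw [← add_assoc, A_root_succ, ih (by omega), mul_zero, zero_add, show n + i + 1 = n + 1 + i by omega]
      exact h1
  by_contra hneg
  push Not at hneg
  -- the homotopy
  set r : ℝ → ℕ → ℝ := fun s j => if j < d then 0 else l j + y ^ (j+1) - (s * y) ^ (j+1) with hr
  have hrc : ∀ j, Continuous (fun s => r s j) := by
    intro j
    simp only [hr]
    by_cases h : j < d
    · simp only [h, if_true]; exact continuous_const
    · simp only [h, if_false]; fun_prop
  set L : ℝ × (Fin d → ℝ) → ℕ → ℝ := fun q => ext d q.2 + r q.1 with hL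
  have hLc : ∀ j, Continuous (fun q => L q j) := by
    intro j
    exact ((continuous_ext d j).comp continuous_snd).add ((hrc j).comp continuous_fst)
  have hLcl : ∀ q, Cl d a ((q.1 * y) ::ₘ Y) (L q) := by
    intro q j hj
    simp only [hL, Pi.add_apply, hr]
    rw [ext_of_ge _ _ _ hj, if_neg (by omega), hcl j hj, ps_cons, ps_cons]
    ring
  set Φ : ℝ × (Fin d → ℝ) → ℝ := fun q => A (L q) n * A (L q + root (q.1 * y)) n with hΦ
  have hΦc : Continuous Φ := by
    apply Continuous.mul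
    · exact continuous_A L hLc n
    · apply continuous_A (fun q => L q + root (q.1 * y))
      intro j
      simp only [Pi.add_apply, root]
      exact (hLc j).add (by fun_prop)
  have hΦne : ∀ q, Run d (L q) (n+1) → Φ q ≠ 0 := by
    intro q hq
    exact mul_ne_zero (hA0 _ _ (hLcl q) hq) (hC0 _ _ _ (hLcl q) hq)
  obtain ⟨M, hM⟩ := bounded_run (Set.Icc (0:ℝ) 1) isCompact_Icc d (n+1) (by omega) r hrc
  set Z : Set (ℝ × (Fin d → ℝ)) := (Set.Icc (0:ℝ) 1 ×ˢ Metric.closedBall (0 : Fin d → ℝ) M) ∩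
    ({q | Run d (L q) (n+1)} ∩ {q | Φ q ≤ 0}) with hZ
  have hZc : IsCompact Z := by
    apply IsCompact.inter_right
    · exact isCompact_Icc.prod (isCompact_closedBall _ _)
    · exact (isClosed_run L hLc d (n+1)).inter (isClosed_le hΦc continuous_const)
  have hZmem : ∀ q : ℝ × (Fin d → ℝ), q.1 ∈ Set.Icc (0:ℝ) 1 → Run d (L q) (n+1) → Φ q ≤ 0 → q ∈ Z := by
    intro q h1 h2 h3
    refine ⟨⟨h1, ?_⟩, h2, h3⟩
    rw [mem_closedBall_zero_iff]
    exact hM q.1 h1 q.2 h2
  have hL1 : L (1, fun i => l i) = l := by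
    funext j
    simp only [hL, Pi.add_apply, hr]
    by_cases hj : j < d
    · rw [ext_of_lt _ _ _ hj, if_pos hj, add_zero]
    · rw [ext_of_ge _ _ _ (by omega), if_neg hj]; ring
  have hZne : Z.Nonempty := by
    refine ⟨(1, fun i => l i), hZmem _ ⟨zero_le_one, le_refl _⟩ ?_ ?_⟩
    · rw [hL1]; exact hrun
    · simp only [hΦ, hL1, one_mul]; exact hneg
  obtain ⟨q0, hq0, hmin⟩ := hZc.exists_isMinOn hZne (continuous_fst.continuousOn)
  have hmin' : ∀ q ∈ Z, q0.1 ≤ q.1 := fun q hq => hmin hq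
  have hq0run : Run d (L q0) (n+1) := hq0.2.1
  have hΦneg : Φ q0 < 0 := lt_of_le_of_ne hq0.2.2 (hΦne q0 hq0run)
  have hs0 : 0 < q0.1 := by
    rcases lt_or_eq_of_le hq0.1.1.1 with h | h
    · exact h
    · exfalso
      have : Φ q0 = A (L q0) n * A (L q0) n := by
        simp only [hΦ]
        rw [← h, zero_mul, root_zero, add_zero]
      rw [this] at hΦneg
      exact absurd hΦneg (not_lt.mpr (mul_self_nonneg _))
  -- local solvability
  obtain ⟨s0, x0⟩ := q0
  simp only at hs0 hmin'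
  have hcont2 : Continuous (fun q : ℝ × (Fin d → ℝ) => Φ (q.1, x0 + q.2)) := by
    apply hΦc.comp
    fun_prop
  have hev : ∀ᶠ q in 𝓝 ((s0, 0) : ℝ × (Fin d → ℝ)), Φ (q.1, x0 + q.2) < 0 := by
    apply hcont2.continuousAt.eventually_lt continuousAt_const
    simpa using hΦneg
  rw [nhds_prod_eq, eventually_prod_iff] at hev
  obtain ⟨pa, hpa, pb, hpb, hpab⟩ := hev
  have hloc := local_solve d (n+1) (by omega) (L (s0, x0)) hq0run (hA0 _ _ (hLcl _) hq0run) {x | pb x} hpb
  have hpath : Continuous (fun s : ℝ => L (s, x0)) := by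
    rw [continuous_pi_iff]
    intro j
    exact (hLc j).comp (by fun_prop)
  have hloc2 : ∀ᶠ s in 𝓝 s0, ∃ x ∈ {x | pb x}, Run d (L (s, x0) + ext d x) (n+1) :=
    hpath.continuousAt.eventually hloc
  have hev3 : ∀ᶠ s in 𝓝[<] s0, ((∃ x ∈ {x | pb x}, Run d (L (s, x0) + ext d x) (n+1)) ∧ pa s ∧ 0 < s) ∧ s < s0 := by
    apply Filter.Eventually.and
    · exact ((hloc2.and (hpa.and (lt_mem_nhds hs0))).filter_mono nhdsWithin_le_nhds)
    · exact self_mem_nhdsWithin
  obtain ⟨s, ⟨⟨x, hx, hxrun⟩, hpas, hs⟩, hss0⟩ := hev3.exists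
  have hneg2 := hpab hpas hx
  simp only at hneg2
  have hLadd : L (s, x0) + ext d x = L (s, x0 + x) := by
    funext j
    simp only [hL, Pi.add_apply]
    by_cases hj : j < d
    · rw [ext_of_lt _ _ _ hj, ext_of_lt _ _ _ hj, ext_of_lt _ _ _ hj, Pi.add_apply]; ring
    · rw [ext_of_ge _ _ _ (by omega), ext_of_ge _ _ _ (by omega), ext_of_ge _ _ _ (by omega)]; ring
  rw [hLadd] at hxrun
  have := hmin' _ (hZmem (s, x0 + x) ⟨hs.le, hss0.le.trans hq0.1.1.2⟩ hxrun hneg2.le)
  simp only at this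
  linarith

theorem no_run (d : ℕ) (hd : Even (d+1)) : ∀ n : ℕ, ∀ a : ℝ, 0 < a → ∀ (Y : Multiset ℝ) (l : ℕ → ℝ),
    Cl d a Y l → ¬ Run (d+1) l n := by
  intro n
  induction n with
  | zero =>
    intro a ha Y l hcl hrun
    have := hrun 0 (by omega)
    rw [add_zero, A_zero] at this
    exact one_ne_zero this
  | succ n ih =>
    intro a ha Y l hcl hrun
    have hrun' : Run d l (n+1) := fun i hi => hrun i (by omega)
    have hA : A l n ≠ 0 := by
      intro h0
      apply ih a ha Y l hcl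
      intro i hi
      rcases i with _ | i
      · exact h0
      · have := hrun' i (by omega)
        rwa [show n + (i+1) = n + 1 + i by omega]
    have h1 := next_Cl d (n+1) (by omega) a Y l hcl hrun'
    rw [hrun d (by omega), mul_zero, Nat.add_sub_cancel] at h1
    have h2 : 0 ≤ (Y.map (fun y => y ^ (d+1) * A (l + root y) n)).sum * A l n := by
      rw [← Multiset.sum_map_mul_right]
      apply Multiset.sum_nonneg
      intro x hx
      rw [Multiset.mem_map] at hx
      obtain ⟨y, hy, rfl⟩ := hx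
      obtain ⟨Y', rfl⟩ := Multiset.exists_cons_of_mem hy
      have h3 := sign_step d n ih a ha Y' y l hcl hrun'
      have h4 : 0 ≤ y ^ (d+1) := hd.pow_nonneg y
      calc 0 ≤ y ^ (d+1) * (A l n * A (l + root y) n) := mul_nonneg h4 h3.le
        _ = _ := by ring
    have h3 : 0 < ((d:ℝ)+1) * a * A l n * A l n := by
      have : 0 < A l n * A l n := mul_self_pos.mpr hA
      have h5 : 0 < ((d:ℝ)+1) * a := by positivity
      calc 0 < ((d:ℝ)+1) * a * (A l n * A l n) := mul_pos h5 this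
        _ = _ := by ring
    have h4 : ((d:ℝ)+1) * a * A l n * A l n + (Y.map (fun y => y ^ (d+1) * A (l + root y) n)).sum * A l n = 0 := by
      linear_combination (A l n) * h1
    linarith

theorem sign_pos (d : ℕ) (hd : Even (d+1)) (n : ℕ) (hn : 1 ≤ n) (a : ℝ) (ha : 0 < a) (Y : Multiset ℝ) (y : ℝ)
    (l : ℕ → ℝ) (hy : y ∈ Y) (hcl : Cl d a Y l)
    (hrun : Run d l n) : 0 < A l (n-1) * A (l + root y) (n-1) := by
  obtain ⟨m, rfl⟩ : ∃ m, n = m + 1 := ⟨n-1, by omega⟩
  obtain ⟨Y', rfl⟩ := Multiset.exists_cons_of_mem hy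
  exact sign_step d m (no_run d hd m) a ha Y' y l hcl hrun

end Pool.Agent.Helper233.LP
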